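import Pool.Agent.R250.MC2

set_option autoImplicit false

/-! # Exponential moments from averages over scales -/

namespace Pool.Agent.R462.SA

open Complex Metric Set Filter Topology MeasureTheory
open Pool.Agent.W677.Mar Pool.Agent.R250.MC

noncomputable def Af (N : ℝ → ℝ) (ρ : ℝ) : ℝ := ∫ x in (0 : ℝ)..ρ, x * N x

noncomputable def Jf (N : ℝ → ℝ) (ρ : ℝ) : ℝ := ∫ x in (0 : ℝ)..ρ, (-(x * Real.log x)) * N x

theorem Af_d {N : ℝ → ℝ} (hN : Continuous N) (ρ : ℝ) : HasDerivAt (Af N) (ρ * N ρ) ρ :=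
  ((continuous_id.mul hN).integral_hasStrictDerivAt 0 ρ).hasDerivAt

theorem Jf_d {N : ℝ → ℝ} (hN : Continuous N) (ρ : ℝ) :
    HasDerivAt (Jf N) ((-(ρ * Real.log ρ)) * N ρ) ρ :=
  (((Real.continuous_mul_log.neg).mul hN).integral_hasStrictDerivAt 0 ρ).hasDerivAt

noncomputable def ex (N : ℝ → ℝ) (s : ℝ) : ℝ := Af N (Real.exp s) * s + Jf N (Real.exp s)

theorem ex_d {N : ℝ → ℝ} (hN : Continuous N) (s : ℝ) : HasDerivAt (ex N) (Af N (Real.exp s)) s := by
  have h1 := ((Af_d hN (Real.exp s)).comp s (Real.hasDerivAt_exp s)).fun_mul (hasDerivAt_id s)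
  have h2 := (Jf_d hN (Real.exp s)).comp s (Real.hasDerivAt_exp s)
  have h3 := h1.fun_add h2
  refine h3.congr_deriv ?_
  simp only [Real.log_exp, Function.comp, id]
  ring

theorem Afx_d {N : ℝ → ℝ} (hN : Continuous N) (s : ℝ) :
    HasDerivAt (fun s => Af N (Real.exp s)) (Real.exp s ^ 2 * N (Real.exp s)) s := by
  have h1 := (Af_d hN (Real.exp s)).comp s (Real.hasDerivAt_exp s)
  refine h1.congr_deriv ?_
  ring

theorem Af_nonneg {N : ℝ → ℝ} (hN0 : ∀ x, 0 ≤ N x) {ρ : ℝ} (hρ : 0 ≤ ρ) : 0 ≤ Af N ρ := by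
  apply intervalIntegral.integral_nonneg hρ
  intro x hx
  exact mul_nonneg hx.1 (hN0 x)

theorem ex_nonneg {N : ℝ → ℝ} (hN : Continuous N) (hN0 : ∀ x, 0 ≤ N x) (s : ℝ) : 0 ≤ ex N s := by
  have e : ex N s = ∫ x in (0 : ℝ)..Real.exp s, (s * (x * N x) + (-(x * Real.log x)) * N x) := by
    rw [intervalIntegral.integral_add]
    · rw [intervalIntegral.integral_const_mul, ex, Af, Jf, mul_comm]
    · exact (continuous_const.mul (continuous_id.mul hN)).intervalIntegrable _ _
    · exact ((Real.continuous_mul_log.neg).mul hN).intervalIntegrable _ _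
  rw [e]
  apply intervalIntegral.integral_nonneg (Real.exp_pos s).le
  intro x hx
  have h1 : s * (x * N x) + (-(x * Real.log x)) * N x = (x * (s - Real.log x)) * N x := by ring
  rw [h1]
  apply mul_nonneg _ (hN0 x)
  rcases hx.1.eq_or_lt with h | h
  · rw [← h]; simp
  · apply mul_nonneg h.le
    have := Real.log_le_log h hx.2
    rw [Real.log_exp] at this
    linarith

/-- **Exponential moments.** -/
theorem moments {H : ℂ → ℂ} (hH : DifferentiableOn ℂ H (ball 0 1)) (h0 : H 0 = 0) {N : ℝ → ℝ}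
    (hNc : Continuous N) (hN0 : ∀ x, 0 ≤ N x) (t : ℂ) {r : ℝ} (hr0 : 0 < r) (hr1 : r < 1)
    (hN : ∀ x, 0 < x → x ≤ r → ∀ θ ∈ Icc (0 : ℝ) (2 * Real.pi), ‖deriv H (pt x θ)‖ ^ 2 ≤ N x) :
    ∫ θ in (0 : ℝ)..(2 * Real.pi), Real.exp ((starRingEnd ℂ) t * H (pt r θ)).re ≤
      2 * Real.pi * Real.exp (‖t‖ ^ 2 * Jf N r) := by
  have hpi := Real.pi_pos
  obtain ⟨τ, hτ⟩ : ∃ τ, τ = ‖t‖ := ⟨_, rfl⟩
  have hτ0 : 0 ≤ τ := hτ ▸ norm_nonneg t
  rw [← hτ]
  set k : ℂ → ℂ := fun z => (starRingEnd ℂ) t * H z with hk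
  have hkD : DifferentiableOn ℂ k (ball 0 1) := hH.const_mul _
  have hkd : ∀ z ∈ ball (0 : ℂ) 1, deriv k z = (starRingEnd ℂ) t * deriv H z := by
    intro z hz
    exact ((hH.differentiableAt (isOpen_ball.mem_nhds hz)).hasDerivAt.const_mul _).deriv
  have hK := kd_of (R₁ := 1) one_pos hkD
  rw [Real.log_one] at hK
  set K : ℂ → ℂ := fun ζ => k (Complex.exp ζ) with hKd
  set K1 : ℂ → ℂ := fun ζ => Complex.exp ζ * deriv k (Complex.exp ζ) with hK1d
  set G : ℝ → ℝ := fun s => ∫ θ in (0 : ℝ)..(2 * Real.pi), (1 : ℝ) * Real.exp (K (zt s θ)).re with hG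
  set G1 : ℝ → ℝ := fun s => ∫ θ in (0 : ℝ)..(2 * Real.pi),
    (1 : ℝ) * (Real.exp (K (zt s θ)).re * (K1 (zt s θ)).re) with hG1
  set G2 : ℝ → ℝ := fun s => (∫ θ in (0 : ℝ)..(2 * Real.pi),
    (1 : ℝ) * (Real.exp (K (zt s θ)).re * ‖K1 (zt s θ)‖ ^ 2)) -
    ∫ θ in (0 : ℝ)..(2 * Real.pi), (0 : ℝ) * Real.exp (K (zt s θ)).re with hG2
  have dG : ∀ s < 0, HasDerivAt G (G1 s) s := fun s hs => en1 hK wd_one hs
  have dG1 : ∀ s < 0, HasDerivAt G1 (G2 s) s := fun s hs => en2 hK wd_one hs
  have hGn : ∀ s, 0 ≤ G s := by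
    intro s
    apply intervalIntegral.integral_nonneg (by positivity)
    intro θ _
    positivity
  have cc : ∀ {f : ℂ → ℂ} {s : ℝ}, s < 0 → ContinuousOn f {ζ : ℂ | ζ.re < 0} →
      Continuous fun θ : ℝ => f (zt s θ) := by
    intro f s hs hf
    apply hf.comp_continuous (zt_cont.comp (continuous_const.prodMk continuous_id))
    intro θ
    show (zt s θ).re < 0
    rw [zt_re]
    exact hs
  -- smallness of `G1` near `-∞`
  have hsmall : ∀ ε : ℝ, 0 < ε → ∀ s < 0, ∃ a < s, |G1 a| ≤ ε := by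
    intro ε hε s hs
    have hcomp : IsCompact (closedBall (0 : ℂ) (1 / 2)) := isCompact_closedBall _ _
    have hsub : closedBall (0 : ℂ) (1 / 2) ⊆ ball 0 1 := closedBall_subset_ball (by norm_num)
    obtain ⟨M, hM⟩ := hcomp.exists_bound_of_continuousOn (hkD.continuousOn.mono hsub)
    obtain ⟨M', hM'⟩ := hcomp.exists_bound_of_continuousOn ((hkD.deriv isOpen_ball).continuousOn.mono hsub)
    have hM0 : 0 ≤ M := (norm_nonneg _).trans (hM 0 (by simp))
    have hM'0 : 0 ≤ M' := (norm_nonneg _).trans (hM' 0 (by simp))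
    obtain ⟨A, hA⟩ : ∃ A, A = 2 * Real.pi * (Real.exp M * M') + 1 := ⟨_, rfl⟩
    have hA0 : 0 < A := by rw [hA]; positivity
    obtain ⟨a, ha⟩ : ∃ a, a = min (s - 1) (min (-1) (Real.log (ε / A))) := ⟨_, rfl⟩
    have ha1 : a < s := by
      have := min_le_left (s - 1) (min (-1) (Real.log (ε / A)))
      rw [ha]; linarith
    have ha2 : a ≤ -1 := by rw [ha]; exact (min_le_right _ _).trans (min_le_left _ _)
    have ha3 : Real.exp a ≤ ε / A := by
      rw [← Real.exp_log (show 0 < ε / A by positivity)]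
      apply Real.exp_le_exp.2
      rw [ha]
      exact (min_le_right _ _).trans (min_le_right _ _)
    have he : Real.exp a ≤ 1 / 2 := by
      have h1 := Real.exp_le_exp.2 ha2
      have h2 := Real.exp_neg_one_lt_d9
      linarith
    refine ⟨a, ha1, ?_⟩
    have hb : ∀ θ ∈ uIoc (0 : ℝ) (2 * Real.pi),
        ‖(1 : ℝ) * (Real.exp (K (zt a θ)).re * (K1 (zt a θ)).re)‖ ≤ Real.exp M * (Real.exp a * M') := by
      intro θ _
      have hz : Complex.exp (zt a θ) ∈ closedBall (0 : ℂ) (1 / 2) := by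
        rw [mem_closedBall_zero_iff, Complex.norm_exp, zt_re]; exact he
      rw [one_mul, norm_mul, Real.norm_of_nonneg (Real.exp_pos _).le]
      apply mul_le_mul _ _ (norm_nonneg _) (Real.exp_pos _).le
      · apply Real.exp_le_exp.2
        exact (re_le_norm _).trans (hM _ hz)
      · rw [Real.norm_eq_abs]
        refine (abs_re_le_norm _).trans ?_
        simp only [hK1d]
        rw [norm_mul, Complex.norm_exp, zt_re]
        exact mul_le_mul_of_nonneg_left (hM' _ hz) (Real.exp_pos _).le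
    have h1 := intervalIntegral.norm_integral_le_of_norm_le_const hb
    rw [sub_zero, abs_of_pos (by positivity)] at h1
    rw [← Real.norm_eq_abs]
    refine h1.trans ?_
    calc Real.exp M * (Real.exp a * M') * (2 * Real.pi) = (2 * Real.pi * (Real.exp M * M')) * Real.exp a := by
          ring
      _ ≤ A * (ε / A) := by
          apply mul_le_mul _ ha3 (Real.exp_pos _).le hA0.le
          rw [hA]; linarith
      _ = ε := by field_simp
  -- the comparison function
  set S : ℝ → ℝ := fun s => Real.exp (τ ^ 2 * ex N s) with hS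
  set S1 : ℝ → ℝ := fun s => S s * (τ ^ 2 * Af N (Real.exp s)) with hS1
  set S2 : ℝ → ℝ := fun s => S s * (τ ^ 2 * Af N (Real.exp s)) * (τ ^ 2 * Af N (Real.exp s)) +
    S s * (τ ^ 2 * (Real.exp s ^ 2 * N (Real.exp s))) with hS2
  set q : ℝ → ℝ := fun s => τ ^ 2 * (Real.exp s ^ 2 * N (Real.exp s)) with hq
  have hS0 : ∀ s, 0 < S s := fun s => Real.exp_pos _
  have dS : ∀ s, HasDerivAt S (S1 s) s := fun s => ((ex_d hNc s).const_mul (τ ^ 2)).exp
  have dS1 : ∀ s, HasDerivAt S1 (S2 s) s := fun s => (dS s).fun_mul ((Afx_d hNc s).const_mul (τ ^ 2))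
  have hS1n : ∀ s, 0 ≤ S1 s := by
    intro s
    have h1 := Af_nonneg hN0 (Real.exp_pos s).le
    have h2 := (hS0 s).le
    simp only [hS1]
    positivity
  obtain ⟨s₁, hs₁⟩ : ∃ s₁, s₁ = Real.log r := ⟨_, rfl⟩
  have hs₁0 : s₁ < 0 := by rw [hs₁]; exact Real.log_neg hr0 hr1
  have hes₁ : Real.exp s₁ = r := by rw [hs₁]; exact Real.exp_log hr0
  -- the differential inequality for `G`
  have hGi : ∀ s ≤ s₁, G2 s ≤ (0 : ℝ) * G1 s + q s * G s := by
    intro s hs'
    have hs : s < 0 := hs'.trans_lt hs₁0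
    have c0 := cc hs (kcK hK)
    have c1 := cc hs (kcK1 hK)
    have ce : Continuous fun θ : ℝ => Real.exp (K (zt s θ)).re :=
      Real.continuous_exp.comp (continuous_re.comp c0)
    have i3 : IntervalIntegrable (fun θ : ℝ => Real.exp (K (zt s θ)).re)
        volume 0 (2 * Real.pi) := ce.intervalIntegrable _ _
    have i4 : IntervalIntegrable (fun θ : ℝ => Real.exp (K (zt s θ)).re * ‖K1 (zt s θ)‖ ^ 2)
        volume 0 (2 * Real.pi) := (ce.mul (c1.norm.pow 2)).intervalIntegrable _ _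
    have hpt : ∀ θ ∈ Icc (0 : ℝ) (2 * Real.pi), ‖K1 (zt s θ)‖ ^ 2 ≤ q s := by
      intro θ hθ
      obtain ⟨v, hv⟩ : ∃ v, v = Complex.exp (zt s θ) := ⟨_, rfl⟩
      have hvn : ‖v‖ = Real.exp s := by rw [hv, Complex.norm_exp, zt_re]
      have hv1 : v ∈ ball (0 : ℂ) 1 := by
        rw [mem_ball_zero_iff, hvn]; exact Real.exp_lt_one_iff.2 hs
      have hK1e : K1 (zt s θ) = (starRingEnd ℂ) t * (v * deriv H v) := by
        simp only [hK1d]
        rw [← hv, hkd v hv1]
        ring
      have hvp : v = pt (Real.exp s) θ := by rw [hv, exp_zt]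
      have hbd := hN (Real.exp s) (Real.exp_pos s) (by rw [← hes₁]; exact Real.exp_le_exp.2 hs') θ hθ
      rw [← hvp] at hbd
      rw [hK1e, norm_mul, norm_mul, RCLike.norm_conj, ← hτ, hvn, mul_pow, mul_pow]
      simp only [hq]
      apply mul_le_mul_of_nonneg_left _ (sq_nonneg τ)
      exact mul_le_mul_of_nonneg_left hbd (sq_nonneg _)
    simp only [hG2, hG, zero_mul, one_mul, intervalIntegral.integral_zero, sub_zero, zero_add]
    rw [← intervalIntegral.integral_const_mul]
    apply intervalIntegral.integral_mono_on (by positivity) i4 (i3.const_mul _)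
    intro θ hθ
    have h6 := mul_le_mul_of_nonneg_left (hpt θ hθ) (Real.exp_pos (K (zt s θ)).re).le
    linarith
  -- the comparison function is a supersolution
  have hSi : ∀ s, (0 : ℝ) * S1 s + q s * S s ≤ S2 s := by
    intro s
    have h1 := Af_nonneg hN0 (Real.exp_pos s).le
    have h2 := (hS0 s).le
    have h3 : 0 ≤ S s * (τ ^ 2 * Af N (Real.exp s)) * (τ ^ 2 * Af N (Real.exp s)) := by positivity
    simp only [hS2, hq]
    nlinarith
  -- the comparison
  have hw : ∀ s ≤ s₁, G1 s * S s - G s * S1 s ≤ 0 := by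
    intro s hs'
    have hs : s < 0 := hs'.trans_lt hs₁0
    apply le_of_forall_pos_le_add
    intro ε hε
    rw [zero_add]
    obtain ⟨B, hB⟩ : ∃ B, B = S s + 1 := ⟨_, rfl⟩
    have hB0 : 0 < B := by rw [hB]; have := hS0 s; linarith
    obtain ⟨a, ha, hae⟩ := hsmall (ε / B) (by positivity) s hs
    have ha0 : a < 0 := ha.trans hs
    have h2 := ode1 (G := G) (G1 := G1) (G2 := G2) (S := S) (S1 := S1) (S2 := S2) (E := fun _ => 1)
      (p := fun _ => 0) (q := q) (a := a) (b := s) (fun u hu => dG u (hu.2.trans_lt hs))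
      (fun u hu => dG1 u (hu.2.trans_lt hs)) (fun u _ => dS u)
      (fun u _ => dS1 u) (fun u _ => by simpa using hasDerivAt_const u (1 : ℝ))
      (fun u _ => one_pos) (fun u _ => hGn u) (fun u _ => hS0 u)
      (fun u hu => hGi u (hu.2.trans hs')) (fun u _ => hSi u)
      ⟨ha.le, le_rfl⟩
    rw [mul_one, mul_one] at h2
    refine h2.trans ?_
    have h4 : 0 ≤ G a * S1 a := mul_nonneg (hGn a) (hS1n a)
    have h5 : S a ≤ B := by
      have hm : MonotoneOn S (Icc a s) := by
        apply monotoneOn_of_deriv_nonneg (convex_Icc a s)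
        · intro u _
          exact (dS u).continuousAt.continuousWithinAt
        · intro u _
          exact (dS u).differentiableAt.differentiableWithinAt
        · intro u _
          rw [(dS u).deriv]
          exact hS1n u
      have := hm ⟨le_rfl, ha.le⟩ ⟨ha.le, le_rfl⟩ ha.le
      rw [hB]; linarith
    have h6 : G1 a ≤ ε / B := (le_abs_self _).trans hae
    have h7 : G1 a * S a ≤ ε / B * B :=
      mul_le_mul h6 h5 (hS0 a).le (by positivity)
    have h8 : ε / B * B = ε := by field_simp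
    linarith
  -- the limit at the centre
  have hmain : G s₁ / S s₁ ≤ 2 * Real.pi := by
    apply le_of_forall_pos_le_add
    intro ε hε
    have hcont : ContinuousAt (fun z : ℂ => k z) 0 :=
      (hkD.differentiableAt (isOpen_ball.mem_nhds (mem_ball_self one_pos))).continuousAt
    have hk0 : k 0 = 0 := by simp only [hk]; rw [h0, mul_zero]
    obtain ⟨η, hη, hηe⟩ : ∃ η : ℝ, 0 < η ∧ 2 * Real.pi * Real.exp η ≤ 2 * Real.pi + ε := by
      refine ⟨Real.log (1 + ε / (2 * Real.pi)), ?_, ?_⟩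
      · apply Real.log_pos
        have : 0 < ε / (2 * Real.pi) := by positivity
        linarith
      · rw [Real.exp_log (by positivity)]
        apply le_of_eq
        field_simp
    rw [Metric.continuousAt_iff] at hcont
    obtain ⟨δ, hδ, hδk⟩ := hcont η hη
    obtain ⟨a, ha⟩ : ∃ a, a = min s₁ (Real.log (δ / 2)) := ⟨_, rfl⟩
    have ha1 : a ≤ s₁ := by rw [ha]; exact min_le_left _ _
    have ha0 : a < 0 := ha1.trans_lt hs₁0
    have hea : Real.exp a < δ := by
      have h1 : Real.exp a ≤ δ / 2 := by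
        rw [← Real.exp_log (show 0 < δ / 2 by positivity)]
        apply Real.exp_le_exp.2
        rw [ha]; exact min_le_right _ _
      linarith
    have h2 := ode2 (G := G) (G1 := G1) (S := S) (S1 := S1) ha1
      (fun u hu => dG u (hu.2.trans_lt hs₁0)) (fun u _ => dS u)
      (fun u _ => hS0 u) (fun u hu => hw u hu.2)
    refine h2.trans ?_
    have hSa : 1 ≤ S a := by
      simp only [hS]
      apply Real.one_le_exp
      exact mul_nonneg (sq_nonneg _) (ex_nonneg hNc hN0 a)
    have hGa : G a ≤ 2 * Real.pi * Real.exp η := by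
      have c0 := cc ha0 (kcK hK)
      have ce : Continuous fun θ : ℝ => Real.exp (K (zt a θ)).re :=
        Real.continuous_exp.comp (continuous_re.comp c0)
      simp only [hG, one_mul]
      calc ∫ θ in (0 : ℝ)..(2 * Real.pi), Real.exp (K (zt a θ)).re
          ≤ ∫ _θ in (0 : ℝ)..(2 * Real.pi), Real.exp η := by
            apply intervalIntegral.integral_mono_on (by positivity) (ce.intervalIntegrable _ _)
              intervalIntegrable_const
            intro θ _
            apply Real.exp_le_exp.2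
            refine (re_le_norm _).trans ?_
            have h3 := hδk (x := Complex.exp (zt a θ)) (by
              rw [dist_zero_right, Complex.norm_exp, zt_re]; exact hea)
            rw [hk0, dist_zero_right] at h3
            exact h3.le
        _ = 2 * Real.pi * Real.exp η := by simp
    rw [div_le_iff₀ (hS0 a)]
    calc G a ≤ 2 * Real.pi + ε := hGa.trans hηe
      _ ≤ (2 * Real.pi + ε) * S a := le_mul_of_one_le_right (by positivity) hSa
  rw [div_le_iff₀ (hS0 s₁)] at hmain
  have e0 : G s₁ = ∫ θ in (0 : ℝ)..(2 * Real.pi), Real.exp ((starRingEnd ℂ) t * H (pt r θ)).re := by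
    simp only [hG, hKd, hk, one_mul]
    refine intervalIntegral.integral_congr fun θ _ => ?_
    rw [exp_zt, hes₁]
  rw [← e0]
  refine hmain.trans ?_
  apply mul_le_mul_of_nonneg_left _ (by positivity)
  simp only [hS]
  apply Real.exp_le_exp.2
  apply mul_le_mul_of_nonneg_left _ (sq_nonneg τ)
  rw [ex, hes₁]
  have := Af_nonneg hN0 hr0.le
  have : Af N r * s₁ ≤ 0 := mul_nonpos_of_nonneg_of_nonpos this hs₁0.le
  linarith

end Pool.Agent.R462.SA
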