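import Pool.Agent.R462.SA.M1


set_option autoImplicit false

/-! # The strong Marshall bound from averages over scales -/

namespace Pool.Agent.R462.SA

open Complex Metric Set Filter Topology MeasureTheory
open Pool.Agent.W677.Mar Pool.Agent.R250.MC

/-- the maximum of `|H'|²` on circles -/
noncomputable def Nf (H : ℂ → ℂ) (r x : ℝ) : ℝ :=
  sSup ((fun θ : ℝ => ‖deriv H (pt (max 0 (min x r)) θ)‖ ^ 2) '' Icc (0 : ℝ) (2 * Real.pi))

theorem f_cont {H : ℂ → ℂ} (hH : DifferentiableOn ℂ H (ball 0 1)) {r : ℝ} (hr1 : r < 1) :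
    Continuous fun p : ℝ × ℝ => ‖deriv H (pt (max 0 (min p.1 r)) p.2)‖ ^ 2 := by
  have h1 : Continuous fun p : ℝ × ℝ => pt (max 0 (min p.1 r)) p.2 := by
    simp only [pt, circleMap]
    fun_prop
  have h2 : ∀ p : ℝ × ℝ, pt (max 0 (min p.1 r)) p.2 ∈ ball (0 : ℂ) 1 := by
    intro p
    rw [mem_ball_zero_iff, norm_pt _ _ (le_max_left _ _)]
    exact max_lt one_pos ((min_le_right _ _).trans_lt hr1)
  exact ((hH.deriv isOpen_ball).continuousOn.comp_continuous h1 h2).norm.pow 2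

theorem Nf_cont {H : ℂ → ℂ} (hH : DifferentiableOn ℂ H (ball 0 1)) {r : ℝ} (hr1 : r < 1) :
    Continuous (Nf H r) :=
  isCompact_Icc.continuous_sSup
    (f := fun x θ : ℝ => ‖deriv H (pt (max 0 (min x r)) θ)‖ ^ 2) (f_cont hH hr1)

theorem Nf_nonneg (H : ℂ → ℂ) (r x : ℝ) : 0 ≤ Nf H r x := by
  apply Real.sSup_nonneg
  rintro _ ⟨θ, _, rfl⟩
  positivity

theorem le_Nf {H : ℂ → ℂ} (hH : DifferentiableOn ℂ H (ball 0 1)) {r : ℝ} (hr1 : r < 1) {x : ℝ}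
    (hx0 : 0 < x) (hxr : x ≤ r) {θ : ℝ} (hθ : θ ∈ Icc (0 : ℝ) (2 * Real.pi)) :
    ‖deriv H (pt x θ)‖ ^ 2 ≤ Nf H r x := by
  have h0 : Continuous fun θ : ℝ => ((x, θ) : ℝ × ℝ) := by fun_prop
  have h1 : Continuous ((fun p : ℝ × ℝ => ‖deriv H (pt (max 0 (min p.1 r)) p.2)‖ ^ 2) ∘
      fun θ : ℝ => ((x, θ) : ℝ × ℝ)) := (f_cont hH hr1).comp h0
  simp only [Function.comp_def] at h1
  have e : pt x θ = pt (max 0 (min x r)) θ := by rw [min_eq_left hxr, max_eq_right hx0.le]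
  have h3 : BddAbove ((fun θ : ℝ => ‖deriv H (pt (max 0 (min x r)) θ)‖ ^ 2) ''
      Icc (0 : ℝ) (2 * Real.pi)) := isCompact_Icc.bddAbove_image h1.continuousOn
  have h4 : ‖deriv H (pt (max 0 (min x r)) θ)‖ ^ 2 ∈
      ((fun θ : ℝ => ‖deriv H (pt (max 0 (min x r)) θ)‖ ^ 2) '' Icc (0 : ℝ) (2 * Real.pi)) :=
    ⟨θ, hθ, rfl⟩
  rw [e]
  exact le_csSup h3 h4

theorem Nf_le {H : ℂ → ℂ} {r x B : ℝ} (hx0 : 0 < x) (hxr : x ≤ r)
    (h : ∀ θ : ℝ, ‖deriv H (pt x θ)‖ ^ 2 ≤ B) : Nf H r x ≤ B := by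
  rw [Nf]
  apply csSup_le
  · exact ⟨_, mem_image_of_mem _ ⟨le_rfl, by have := Real.pi_pos; positivity⟩⟩
  · rintro _ ⟨θ, _, rfl⟩
    simp only [min_eq_left hxr, max_eq_right hx0.le]
    exact h θ

theorem weight {x : ℝ} (h0 : 0 < x) (h1 : x < 1) :
    (1 - x) / (1 - x ^ 2) ^ 2 ≤ x / (2 * (1 - x ^ 2)) + 1 := by
  have h2 : 0 < 1 - x ^ 2 := by nlinarith
  rw [div_le_iff₀ (by positivity)]
  have e : (x / (2 * (1 - x ^ 2)) + 1) * (1 - x ^ 2) ^ 2 = x * (1 - x ^ 2) / 2 + (1 - x ^ 2) ^ 2 := by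
    field_simp
  rw [e]
  have h3 : 0 ≤ (1 - x) * (x * ((1 - x) * (3 + 2 * x))) := by
    have : 0 ≤ 1 - x := by linarith
    positivity
  nlinarith

theorem Jf_le {H : ℂ → ℂ} (hH : DifferentiableOn ℂ H (ball 0 1)) {r : ℝ} (hr0 : 0 < r) (hr1 : r < 1)
    {β : ℝ → ℝ} (hβi : IntervalIntegrable (fun x => β x ^ 2 * (2 * x / (1 - x ^ 2))) volume 0 r)
    (h6 : ∀ x, 0 < x → x ≤ r → ∀ θ : ℝ, (1 - x ^ 2) * ‖deriv H (pt x θ)‖ ≤ 6)
    (hβ : ∀ x, 0 < x → x ≤ r → ∀ θ : ℝ, (1 - x ^ 2) * ‖deriv H (pt x θ)‖ ≤ β x) :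
    Jf (Nf H r) r ≤ 1 / 4 * (∫ x in (0 : ℝ)..r, β x ^ 2 * (2 * x / (1 - x ^ 2))) + 36 := by
  have hpt : ∀ x ∈ Icc (0 : ℝ) r, (-(x * Real.log x)) * Nf H r x ≤
      1 / 4 * (β x ^ 2 * (2 * x / (1 - x ^ 2))) + 36 := by
    intro x hx
    rcases hx.1.eq_or_lt with h | h
    · rw [← h]; norm_num
    · have hx1 : x < 1 := hx.2.trans_lt hr1
      have h2 : 0 < 1 - x ^ 2 := by nlinarith
      have hl : -(x * Real.log x) ≤ 1 - x := by
        have h3 := Real.one_sub_inv_le_log_of_pos h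
        have h4 := mul_le_mul_of_nonneg_left h3 h.le
        have h5 : x * (1 - x⁻¹) = x - 1 := by field_simp
        linarith
      have key : ∀ B : ℝ, (∀ θ : ℝ, (1 - x ^ 2) * ‖deriv H (pt x θ)‖ ≤ B) →
          (1 - x ^ 2) ^ 2 * Nf H r x ≤ B ^ 2 := by
        intro B hB
        have h3 : Nf H r x ≤ B ^ 2 / (1 - x ^ 2) ^ 2 := by
          apply Nf_le h hx.2
          intro θ
          rw [le_div_iff₀ (by positivity)]
          have h4 := pow_le_pow_left₀ (by positivity) (hB θ) 2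
          calc ‖deriv H (pt x θ)‖ ^ 2 * (1 - x ^ 2) ^ 2 = ((1 - x ^ 2) * ‖deriv H (pt x θ)‖) ^ 2 := by ring
            _ ≤ _ := h4
        rw [le_div_iff₀ (by positivity)] at h3
        linarith
      have k1 := key _ (hβ x h hx.2)
      have k2 := key _ (h6 x h hx.2)
      obtain ⟨m, hm⟩ : ∃ m, m = (1 - x ^ 2) ^ 2 * Nf H r x := ⟨_, rfl⟩
      have hN := Nf_nonneg H r x
      have hm0 : 0 ≤ m := by rw [hm]; positivity
      rw [← hm] at k1 k2
      have hNm : Nf H r x = m / (1 - x ^ 2) ^ 2 := by rw [hm]; field_simp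
      have s1 : (-(x * Real.log x)) * Nf H r x ≤ (1 - x) * Nf H r x :=
        mul_le_mul_of_nonneg_right hl hN
      have s2 : (1 - x) * Nf H r x = m * ((1 - x) / (1 - x ^ 2) ^ 2) := by rw [hNm]; ring
      have s3 := mul_le_mul_of_nonneg_left (weight h hx1) hm0
      have s4 : m * (x / (2 * (1 - x ^ 2)) + 1) ≤ β x ^ 2 * (x / (2 * (1 - x ^ 2))) + 36 := by
        have h7 : 0 ≤ x / (2 * (1 - x ^ 2)) := by positivity
        have h8 := mul_le_mul_of_nonneg_right k1 h7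
        have h9 : m * (x / (2 * (1 - x ^ 2)) + 1) = m * (x / (2 * (1 - x ^ 2))) + m := by ring
        rw [h9]
        norm_num at k2
        linarith
      have s5 : β x ^ 2 * (x / (2 * (1 - x ^ 2))) = 1 / 4 * (β x ^ 2 * (2 * x / (1 - x ^ 2))) := by
        field_simp
        norm_num
      rw [s5] at s4
      rw [s2] at s1
      linarith
  have h1 := intervalIntegral.integral_mono_on hr0.le
    ((Real.continuous_mul_log.neg.mul (Nf_cont hH hr1)).intervalIntegrable 0 r)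
    ((hβi.const_mul (1 / 4)).add intervalIntegrable_const) hpt
  rw [intervalIntegral.integral_add (hβi.const_mul (1 / 4)) intervalIntegrable_const,
    intervalIntegral.integral_const_mul, intervalIntegral.integral_const, smul_eq_mul, sub_zero] at h1
  rw [Jf]
  refine h1.trans ?_
  linarith

/-- the derivative of `hat` on a circle. -/
theorem hat_bd {h : ℂ → ℂ} (hH : Hol h 0) {x θ : ℝ} (hx0 : 0 < x) (hx1 : x < 1) :
    (1 - x ^ 2) * ‖deriv (hat h 0) (pt x θ)‖ =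
      (‖(pt x θ)⁻¹‖ ^ 2 - 1) * ‖deriv h (pt x θ)⁻¹‖ := by
  have hn : ‖pt x θ‖ = x := norm_pt _ _ hx0.le
  have hb : pt x θ ∈ ball (0 : ℂ) 1 := by rw [mem_ball_zero_iff, hn]; exact hx1
  have hne : pt x θ ≠ 0 := by rw [← norm_pos_iff, hn]; exact hx0
  have h1 := congrArg norm (hat_deriv hH hb hne)
  rw [norm_mul, norm_neg, norm_mul, norm_inv, hn] at h1
  rw [norm_inv, hn]
  have h2 : ‖deriv (hat h 0) (pt x θ)‖ = x⁻¹ * (x⁻¹ * ‖deriv h (pt x θ)⁻¹‖) := by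
    rw [← h1]; field_simp
  rw [h2]
  field_simp

theorem six {Y H : ℂ → ℂ} (S : Sg Y H) {x θ : ℝ} (hx0 : 0 < x) (hx1 : x < 1) :
    (1 - x ^ 2) * ‖deriv H (pt x θ)‖ ≤ 6 := by
  have hn : ‖pt x θ‖ = x := norm_pt _ _ hx0.le
  have hb : pt x θ ∈ ball (0 : ℂ) 1 := by rw [mem_ball_zero_iff, hn]; exact hx1
  have h1 := deriv_bound S hb
  have h2 : 0 < 1 - x ^ 2 := by nlinarith
  rw [norm_mul, norm_mul, Complex.norm_real, hn, Real.norm_of_nonneg h2.le] at h1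
  have h3 : x * ((1 - x ^ 2) * ‖deriv H (pt x θ)‖) ≤ x * 6 := by linarith
  exact le_of_mul_le_mul_left h3 hx0

/-- Exponential moments in the exterior, from an average over scales. -/
theorem moments_scale {Y h : ℂ → ℂ} (hH : Hol h 0) (S : Sg Y (hat h 0)) {R : ℝ} (hR : 1 < R)
    {β : ℝ → ℝ} (hβi : IntervalIntegrable (fun x => β x ^ 2 * (2 * x / (1 - x ^ 2))) volume 0 R⁻¹)
    (hβ : ∀ z : ℂ, R ≤ ‖z‖ → (‖z‖ ^ 2 - 1) * ‖deriv h z‖ ≤ β ‖z‖⁻¹) (t : ℂ) :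
    ∫ θ in (0 : ℝ)..(2 * Real.pi), Real.exp ((starRingEnd ℂ) t *
        h ((R : ℂ) * Complex.exp ((θ : ℂ) * Complex.I))).re ≤
      2 * Real.pi * Real.exp (‖t‖ ^ 2 *
        (1 / 4 * (∫ x in (0 : ℝ)..R⁻¹, β x ^ 2 * (2 * x / (1 - x ^ 2))) + 36)) := by
  have hR0 : 0 < R := by linarith
  have hr0 : 0 < R⁻¹ := by positivity
  have hr1 : R⁻¹ < 1 := inv_lt_one_of_one_lt₀ hR
  have hd := hat_diff hH
  have h1 := moments hd (hat_zero h 0) (Nf_cont hd hr1) (Nf_nonneg _ _) t hr0 hr1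
    (fun x hx0 hxr θ hθ => le_Nf hd hr1 hx0 hxr hθ)
  have h2 := Jf_le hd hr0 hr1 hβi (fun x hx0 hxr θ => six S hx0 (hxr.trans_lt hr1))
    (fun x hx0 hxr θ => by
      rw [hat_bd hH hx0 (hxr.trans_lt hr1)]
      have hn : ‖(pt x θ)⁻¹‖ = x⁻¹ := by rw [norm_inv, norm_pt _ _ hx0.le]
      have h3 := hβ (pt x θ)⁻¹ (by
        rw [hn]
        exact (le_inv_comm₀ hR0 hx0).2 hxr)
      rw [hn, inv_inv] at h3
      rw [hn]
      exact h3)
  refine ((circ_int h hR (fun w => Real.exp ((starRingEnd ℂ) t * w).re)).trans_le h1).trans ?_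
  have hpi := Real.pi_pos
  apply mul_le_mul_of_nonneg_left _ (by positivity)
  apply Real.exp_le_exp.2
  exact mul_le_mul_of_nonneg_left h2 (sq_nonneg _)

/-- Exponential square integrability from exponential moments. -/
theorem square_of {h : ℂ → ℂ} (hH : Hol h 0) {R a m : ℝ} (hR : 1 < R) (ha : 0 < a)
    (ham : 4 * a * m < Real.log (R ^ 2 / (R ^ 2 - 1)))
    (hB : ∀ t : ℂ, ∫ θ in (0 : ℝ)..(2 * Real.pi), Real.exp ((starRingEnd ℂ) t *
        h ((R : ℂ) * Complex.exp ((θ : ℂ) * Complex.I))).re ≤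
      2 * Real.pi * Real.exp (‖t‖ ^ 2 * m)) :
    (1 / (2 * Real.pi)) * ∫ θ in (0 : ℝ)..(2 * Real.pi),
        Real.exp (a * ‖h ((R : ℂ) * Complex.exp ((θ : ℂ) * Complex.I))‖ ^ 2
          / Real.log (R ^ 2 / (R ^ 2 - 1))) ≤
      1 / (1 - 4 * a * m / Real.log (R ^ 2 / (R ^ 2 - 1))) := by
  have hpi := Real.pi_pos
  have hR0 : 0 < R := by linarith
  have hL := L_pos hR
  obtain ⟨L, hLd⟩ : ∃ L, L = Real.log (R ^ 2 / (R ^ 2 - 1)) := ⟨_, rfl⟩
  rw [← hLd] at hL ham ⊢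
  obtain ⟨b, hb⟩ : ∃ b, b = L / (4 * a) := ⟨_, rfl⟩
  have hb0 : 0 < b := by rw [hb]; positivity
  have hbm : m < b := by
    rw [hb, lt_div_iff₀ (by positivity)]
    linarith
  set g : ℝ → ℂ := fun θ => h ((R : ℂ) * Complex.exp ((θ : ℂ) * Complex.I)) with hg
  have hmem : ∀ θ : ℝ, 1 < ‖(R : ℂ) * Complex.exp ((θ : ℂ) * Complex.I)‖ := by
    intro θ
    rw [norm_mul, Complex.norm_exp_ofReal_mul_I, Complex.norm_real, Real.norm_of_nonneg hR0.le,
      mul_one]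
    exact hR
  have hgc : Continuous g := by
    apply hH.1.continuousOn.comp_continuous (by fun_prop) hmem
  have hcomp : IsCompact (sphere (0 : ℂ) R) := isCompact_sphere _ _
  obtain ⟨M, hM⟩ := hcomp.exists_bound_of_continuousOn (f := h) (hH.1.continuousOn.mono (by
    intro z hz
    rw [mem_sphere_zero_iff_norm] at hz
    show 1 < ‖z‖
    rw [hz]
    exact hR))
  have hgM : ∀ θ, ‖g θ‖ ≤ M := by
    intro θ
    apply hM
    rw [mem_sphere_zero_iff_norm, norm_mul, Complex.norm_exp_ofReal_mul_I, Complex.norm_real,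
      Real.norm_of_nonneg hR0.le, mul_one]
  have hbm0 : 0 < b - m := by linarith
  obtain ⟨g1, g2⟩ := gauss0 hbm0
  have e1 : (fun t : ℂ => Real.exp (-b * ‖t‖ ^ 2) * (2 * Real.pi * Real.exp (‖t‖ ^ 2 * m))) =
      fun t : ℂ => 2 * Real.pi * Real.exp (-(b - m) * ‖t‖ ^ 2) := by
    funext t
    have : Real.exp (-(b - m) * ‖t‖ ^ 2) = Real.exp (-b * ‖t‖ ^ 2) * Real.exp (‖t‖ ^ 2 * m) := by
      rw [← Real.exp_add]
      congr 1
      ring
    rw [this]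
    ring
  have h1 := gauss_avg hgc hgM hb0 hB (by rw [e1]; exact g1.const_mul _)
  rw [e1, integral_const_mul, g2] at h1
  have e2 : ∀ θ, Real.exp (a * ‖g θ‖ ^ 2 / L) = Real.exp (‖g θ‖ ^ 2 / (4 * b)) := by
    intro θ
    congr 1
    rw [hb]
    field_simp
  simp only [hg] at e2 h1
  simp only [e2]
  calc (1 / (2 * Real.pi)) * ∫ θ in (0 : ℝ)..(2 * Real.pi),
        Real.exp (‖h ((R : ℂ) * Complex.exp ((θ : ℂ) * Complex.I))‖ ^ 2 / (4 * b))
      ≤ (1 / (2 * Real.pi)) * (b / Real.pi * (2 * Real.pi * (Real.pi / (b - m)))) :=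
        mul_le_mul_of_nonneg_left h1 (by positivity)
    _ = b / (b - m) := by field_simp
    _ = 1 / (1 - 4 * a * m / L) := by
        have h2 : b - m = b * (1 - 4 * a * m / L) := by
          rw [hb]
          field_simp
        rw [h2]
        have h3 : 0 < 1 - 4 * a * m / L := by
          have : 4 * a * m / L < 1 := by rw [div_lt_one hL]; exact ham
          linarith
        field_simp

/-- the bound of the integral for bounded `L`. -/
theorem small_L {Y h : ℂ → ℂ} (hH : Hol h 0) (S : Sg Y (hat h 0)) {R a Λ : ℝ} (hR : 1 < R)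
    (ha : 0 < a) (h1 : Real.log (R ^ 2 / (R ^ 2 - 1)) ≤ Λ) :
    (1 / (2 * Real.pi)) * ∫ θ in (0 : ℝ)..(2 * Real.pi),
        Real.exp (a * ‖h ((R : ℂ) * Complex.exp ((θ : ℂ) * Complex.I))‖ ^ 2
          / Real.log (R ^ 2 / (R ^ 2 - 1))) ≤ Real.exp (a * Λ) := by
  have hpi := Real.pi_pos
  have hR0 : 0 < R := by linarith
  have hL := L_pos hR
  have hb : ∀ θ : ℝ, Real.exp (a * ‖h ((R : ℂ) * Complex.exp ((θ : ℂ) * Complex.I))‖ ^ 2
        / Real.log (R ^ 2 / (R ^ 2 - 1))) ≤ Real.exp (a * Λ) := by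
    intro θ
    apply Real.exp_le_exp.2
    have hz : ‖(R : ℂ) * Complex.exp ((θ : ℂ) * Complex.I)‖ = R := by
      rw [norm_mul, Complex.norm_exp_ofReal_mul_I, Complex.norm_real, Real.norm_of_nonneg hR0.le,
        mul_one]
    have h2 := goluzin_ext S hR hz
    rw [div_le_iff₀ hL]
    have h3 := norm_nonneg (h ((R : ℂ) * Complex.exp ((θ : ℂ) * Complex.I)))
    calc a * ‖h ((R : ℂ) * Complex.exp ((θ : ℂ) * Complex.I))‖ ^ 2
        ≤ a * (Real.log (R ^ 2 / (R ^ 2 - 1))) ^ 2 := by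
          apply mul_le_mul_of_nonneg_left _ ha.le
          exact pow_le_pow_left₀ h3 h2 2
      _ ≤ a * Λ * Real.log (R ^ 2 / (R ^ 2 - 1)) := by
          rw [sq, ← mul_assoc]
          apply mul_le_mul_of_nonneg_right _ hL.le
          exact mul_le_mul_of_nonneg_left h1 ha.le
  have hmem : ∀ θ : ℝ, 1 < ‖(R : ℂ) * Complex.exp ((θ : ℂ) * Complex.I)‖ := by
    intro θ
    rw [norm_mul, Complex.norm_exp_ofReal_mul_I, Complex.norm_real, Real.norm_of_nonneg hR0.le,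
      mul_one]
    exact hR
  have hgc : Continuous fun θ : ℝ => h ((R : ℂ) * Complex.exp ((θ : ℂ) * Complex.I)) := by
    apply hH.1.continuousOn.comp_continuous (by fun_prop) hmem
  have h3 : ∫ θ in (0 : ℝ)..(2 * Real.pi),
      Real.exp (a * ‖h ((R : ℂ) * Complex.exp ((θ : ℂ) * Complex.I))‖ ^ 2
        / Real.log (R ^ 2 / (R ^ 2 - 1))) ≤ ∫ _θ in (0 : ℝ)..(2 * Real.pi), Real.exp (a * Λ) := by
    apply intervalIntegral.integral_mono_on (by positivity)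
    · apply Continuous.intervalIntegrable
      exact ((continuous_const.mul (hgc.norm.pow 2)).div_const _).rexp
    · exact intervalIntegrable_const
    · intro θ _
      exact hb θ
  rw [intervalIntegral.integral_const, smul_eq_mul, sub_zero] at h3
  calc (1 / (2 * Real.pi)) * ∫ θ in (0 : ℝ)..(2 * Real.pi),
      Real.exp (a * ‖h ((R : ℂ) * Complex.exp ((θ : ℂ) * Complex.I))‖ ^ 2
        / Real.log (R ^ 2 / (R ^ 2 - 1)))
      ≤ (1 / (2 * Real.pi)) * (2 * Real.pi * Real.exp (a * Λ)) :=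
        mul_le_mul_of_nonneg_left h3 (by positivity)
    _ = Real.exp (a * Λ) := by field_simp

/-- **Averages over scales.** -/
theorem marshall_scale {a V K : ℝ} (ha : 0 < a) (haV : a * V < 1) :
    ∃ C : ℝ, ∀ (R : ℝ) (Y h : ℂ → ℂ) (β : ℝ → ℝ), 1 < R → Hol h 0 → Sg Y (hat h 0) →
      IntervalIntegrable (fun x => β x ^ 2 * (2 * x / (1 - x ^ 2))) volume 0 R⁻¹ →
      (∀ z : ℂ, R ≤ ‖z‖ → (‖z‖ ^ 2 - 1) * ‖deriv h z‖ ≤ β ‖z‖⁻¹) →
      (∫ x in (0 : ℝ)..R⁻¹, β x ^ 2 * (2 * x / (1 - x ^ 2))) ≤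
        V * Real.log (R ^ 2 / (R ^ 2 - 1)) + K →
      (1 / (2 * Real.pi)) * ∫ θ in (0 : ℝ)..(2 * Real.pi),
        Real.exp (a * ‖h ((R : ℂ) * Complex.exp ((θ : ℂ) * Complex.I))‖ ^ 2
          / Real.log (R ^ 2 / (R ^ 2 - 1))) ≤ C := by
  obtain ⟨δ, hδ⟩ : ∃ δ, δ = 1 - a * V := ⟨_, rfl⟩
  have hδ0 : 0 < δ := by rw [hδ]; linarith
  obtain ⟨Λ, hΛ⟩ : ∃ Λ, Λ = 2 * a * (|K| + 144) / δ := ⟨_, rfl⟩
  refine ⟨max (2 / δ) (Real.exp (a * Λ)), ?_⟩
  intro R Y h β hR hH S hβi hβ hE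
  have hL := L_pos hR
  rcases le_or_gt Λ (Real.log (R ^ 2 / (R ^ 2 - 1))) with h1 | h1
  · apply le_trans _ (le_max_left _ _)
    obtain ⟨L, hLd⟩ : ∃ L, L = Real.log (R ^ 2 / (R ^ 2 - 1)) := ⟨_, rfl⟩
    obtain ⟨E, hEd⟩ : ∃ E, E = ∫ x in (0 : ℝ)..R⁻¹, β x ^ 2 * (2 * x / (1 - x ^ 2)) := ⟨_, rfl⟩
    have hm := moments_scale hH S hR hβi hβ
    rw [← hEd] at hm hE
    have h2 : 4 * a * (1 / 4 * E + 36) ≤ (1 - δ / 2) * L := by
      have h3 : a * E ≤ a * (V * L + K) := by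
        apply mul_le_mul_of_nonneg_left _ ha.le
        rw [hLd]; exact hE
      have h4 : 2 * a * (|K| + 144) ≤ δ * L := by
        rw [hΛ, div_le_iff₀ hδ0, ← hLd] at h1
        linarith
      have h5 : a * K ≤ a * |K| := mul_le_mul_of_nonneg_left (le_abs_self K) ha.le
      have h6 : a * V = 1 - δ := by rw [hδ]; ring
      have h7 : a * (V * L + K) = (1 - δ) * L + a * K := by rw [← h6]; ring
      linarith
    rw [← hLd] at hL
    have h8 : 4 * a * (1 / 4 * E + 36) < L := by nlinarith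
    have h9 := square_of hH hR ha (m := 1 / 4 * E + 36) (by rw [← hLd]; exact h8) hm
    refine h9.trans ?_
    rw [← hLd]
    have h10 : 4 * a * (1 / 4 * E + 36) / L ≤ 1 - δ / 2 := by
      rw [div_le_iff₀ hL]; exact h2
    rw [div_le_div_iff₀ (by linarith) hδ0]
    linarith
  · exact (small_L hH S hR ha h1.le).trans (le_max_right _ _)

end Pool.Agent.R462.SA
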