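import Pool.Agent.R462.SA.M2

set_option autoImplicit false

/-! # Exceptional scales -/

namespace Pool.Agent.R462.SA

open Complex Metric Set Filter Topology MeasureTheory
open Pool.Agent.W677.Mar Pool.Agent.R250.MC

theorem w_cont {r : ℝ} (hr0 : 0 < r) (hr1 : r < 1) :
    IntervalIntegrable (fun x : ℝ => 2 * x / (1 - x ^ 2)) volume 0 r := by
  apply ContinuousOn.intervalIntegrable
  intro x hx
  rw [uIcc_of_le hr0.le] at hx
  have h2 : (1 : ℝ) - x ^ 2 ≠ 0 := by nlinarith [hx.1, hx.2]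
  apply ContinuousAt.continuousWithinAt
  fun_prop (disch := exact h2)

theorem w_int {R : ℝ} (hR : 1 < R) :
    ∫ x in (0 : ℝ)..R⁻¹, 2 * x / (1 - x ^ 2) = Real.log (R ^ 2 / (R ^ 2 - 1)) := by
  have hR0 : 0 < R := by linarith
  have hr0 : 0 < R⁻¹ := by positivity
  have hr1 : R⁻¹ < 1 := inv_lt_one_of_one_lt₀ hR
  have h1 := intervalIntegral.integral_eq_sub_of_hasDerivAt (a := 0) (b := R⁻¹)
    (f := fun x : ℝ => lam (x ^ 2)) (f' := fun x : ℝ => 2 * x / (1 - x ^ 2)) (fun x hx => by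
      rw [uIcc_of_le hr0.le] at hx
      have h2 : x ^ 2 < 1 := by nlinarith [hx.1, hx.2]
      have hp : HasDerivAt (fun y : ℝ => y ^ 2) (2 * x) x := by simpa using hasDerivAt_pow 2 x
      have h3 : HasDerivAt (fun y : ℝ => lam (y ^ 2)) (1 / (1 - x ^ 2) * (2 * x)) x :=
        HasDerivAt.comp (h₂ := lam) (h := fun y : ℝ => y ^ 2) x (lam_deriv h2) hp
      refine h3.congr_deriv ?_
      ring) (w_cont hr0 hr1)
  rw [h1, lam_R hR]
  simp [lam]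

theorem ext_six {Y h : ℂ → ℂ} (hH : Hol h 0) (S : Sg Y (hat h 0)) {z : ℂ} (hz : 1 < ‖z‖) :
    (‖z‖ ^ 2 - 1) * ‖deriv h z‖ ≤ 6 := by
  have hz0 : 0 < ‖z‖ := by linarith
  have hzne : z ≠ 0 := norm_pos_iff.1 hz0
  have hv : z⁻¹ ∈ ball (0 : ℂ) 1 := by
    rw [mem_ball_zero_iff, norm_inv]
    exact inv_lt_one_of_one_lt₀ hz
  have h1 := deriv_bound S hv
  rw [hat_deriv hH hv (inv_ne_zero hzne), inv_inv, norm_mul, norm_neg, norm_mul, norm_inv,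
    Complex.norm_real] at h1
  have h2 : 0 < 1 - ‖z‖⁻¹ ^ 2 := by
    have := inv_lt_one_of_one_lt₀ hz
    have : 0 < ‖z‖⁻¹ := by positivity
    nlinarith
  rw [Real.norm_of_nonneg h2.le] at h1
  have h3 := mul_le_mul_of_nonneg_right h1 hz0.le
  have e1 : (1 - ‖z‖⁻¹ ^ 2) * (‖z‖ * ‖deriv h z‖) * ‖z‖ = (‖z‖ ^ 2 - 1) * ‖deriv h z‖ := by
    field_simp
  have e2 : 6 * ‖z‖⁻¹ * ‖z‖ = 6 := by field_simp
  rw [e1, e2] at h3
  exact h3

open Classical in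
/-- **Exceptional scales.** -/
theorem marshall_exc {a b δ K : ℝ} (ha : 0 < a) (hb6 : b ≤ 6) (hb : 0 ≤ b)
    (hab : a * (b ^ 2 + (36 - b ^ 2) * δ) < 1) :
    ∃ C : ℝ, ∀ (R : ℝ) (Y h : ℂ → ℂ) (E : Set ℝ), 1 < R → Hol h 0 → Sg Y (hat h 0) →
      MeasurableSet E →
      (∀ z : ℂ, R ≤ ‖z‖ → ‖z‖⁻¹ ∉ E → (‖z‖ ^ 2 - 1) * ‖deriv h z‖ ≤ b) →
      (∫ x in (0 : ℝ)..R⁻¹, E.indicator (fun x => 2 * x / (1 - x ^ 2)) x) ≤
        δ * Real.log (R ^ 2 / (R ^ 2 - 1)) + K →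
      (1 / (2 * Real.pi)) * ∫ θ in (0 : ℝ)..(2 * Real.pi),
        Real.exp (a * ‖h ((R : ℂ) * Complex.exp ((θ : ℂ) * Complex.I))‖ ^ 2
          / Real.log (R ^ 2 / (R ^ 2 - 1))) ≤ C := by
  obtain ⟨C, hC⟩ := marshall_scale (V := b ^ 2 + (36 - b ^ 2) * δ) (K := (36 - b ^ 2) * K) ha hab
  refine ⟨C, fun R Y h E hR hH S hE hbd hEi => ?_⟩
  have hR0 : 0 < R := by linarith
  have hr0 : 0 < R⁻¹ := by positivity
  have hr1 : R⁻¹ < 1 := inv_lt_one_of_one_lt₀ hR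
  have hw := w_cont hr0 hr1
  have hwE : IntervalIntegrable (fun x => E.indicator (fun x => 2 * x / (1 - x ^ 2)) x) volume 0 R⁻¹ :=
    ⟨hw.1.indicator hE, hw.2.indicator hE⟩
  have hpt : (fun x : ℝ => (if x ∈ E then (6 : ℝ) else b) ^ 2 * (2 * x / (1 - x ^ 2))) =
      fun x => b ^ 2 * (2 * x / (1 - x ^ 2)) +
        (36 - b ^ 2) * E.indicator (fun x => 2 * x / (1 - x ^ 2)) x := by
    funext x
    by_cases hx : x ∈ E
    · rw [if_pos hx, indicator_of_mem hx]; ring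
    · rw [if_neg hx, indicator_of_notMem hx]; ring
  apply hC R Y h (fun x => if x ∈ E then (6 : ℝ) else b) hR hH S
  · rw [hpt]
    exact (hw.const_mul _).add (hwE.const_mul _)
  · intro z hz
    show _ ≤ if ‖z‖⁻¹ ∈ E then (6 : ℝ) else b
    by_cases hx : ‖z‖⁻¹ ∈ E
    · rw [if_pos hx]
      exact ext_six hH S (hR.trans_le hz)
    · rw [if_neg hx]
      exact hbd z hz hx
  · show (∫ x in (0 : ℝ)..R⁻¹, (if x ∈ E then (6 : ℝ) else b) ^ 2 * (2 * x / (1 - x ^ 2))) ≤ _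
    rw [hpt, intervalIntegral.integral_add (hw.const_mul _) (hwE.const_mul _),
      intervalIntegral.integral_const_mul, intervalIntegral.integral_const_mul, w_int hR]
    have h1 : 0 ≤ 36 - b ^ 2 := by nlinarith
    have h2 := mul_le_mul_of_nonneg_left hEi h1
    linarith

end Pool.Agent.R462.SA
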